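import Pool.Agent.Helper53.UW.Ask
import Pool.Agent.Helper56.Sus3.LSE

/-!
# UW-OLE: the edges are computed by a loop with an oracle
-/

set_option autoImplicit false
set_option linter.dupNamespace false

namespace Pool.Agent.Helper45.UW

open Pool.Agent.Helper65.LinSpace Pool.Agent.Helper78.Mpc Pool.Agent.Helper28.Ram Finset
open Pool.Agent.Helper81.Sus2 Pool.Agent.Helper81.Sus2H56
open Pool.Agent.Helper81.Sus2H14 (ls_pV ls_pu)
open Pool.Agent.Helper81.Sus3 (iC iP iZ)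
open Pool.Agent.Helper31.SusD (nxt nxt_lt lst)
open Pool.Agent.Helper31.OL (OL OL.of_ls OL.comp OL.comp_ls OL.ls_comp OL.prodMk OL.ifz OL.mul OL.sub
  OL.div OL.mod OL.lt01 OL.eq01 OL.sum_le' OL.nrec OL.lst OL.add)
open Pool.Agent.Helper56.Sus3 (chk_le fin_le ls_iZ lt01_le)

section

variable {κ : Type} [Ctx κ] {acc : κ → ℕ} {β : Type} [Ctx β] {P : β → Prm} {C : β → ℕ}
  {F : β → ℕ → ℕ → ℕ → ℕ → ℕ → ℕ → ℕ → ℕ}

/-- the hypothesis on `F` -/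
def OF (acc : κ → ℕ) (F : β → ℕ → ℕ → ℕ → ℕ → ℕ → ℕ → ℕ → ℕ) : Prop :=
  OL acc (fun z : β × ℕ × ℕ × ℕ × ℕ × ℕ × ℕ × ℕ => F z.1 z.2.1 z.2.2.1 z.2.2.2.1 z.2.2.2.2.1
    z.2.2.2.2.2.1 z.2.2.2.2.2.2.1 z.2.2.2.2.2.2.2)

theorem of_comp {γ : Type} [Ctx γ] (h : OF acc F) {π : γ → β} (hπ : LS π) :
    OF acc (fun b => F (π b)) := by
  unfold OF at h ⊢
  have hπ' : LS (fun z : γ × ℕ × ℕ × ℕ × ℕ × ℕ × ℕ × ℕ => π z.1) := LS.comp (g := π) hπ LS.fst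
  exact OL.comp_ls (g := fun z : β × ℕ × ℕ × ℕ × ℕ × ℕ × ℕ × ℕ => F z.1 z.2.1 z.2.2.1 z.2.2.2.1
    z.2.2.2.2.1 z.2.2.2.2.2.1 z.2.2.2.2.2.2.1 z.2.2.2.2.2.2.2)
    (f := fun z : γ × ℕ × ℕ × ℕ × ℕ × ℕ × ℕ × ℕ => (π z.1, z.2)) h (by fun_prop)

theorem ol_c (n : ℕ) : OL acc (fun _ : β => n) := OL.of_ls (LS.const n)

theorem ol_bad (h : LSP P C) (hF : OF acc F) {m c p d p' Y τ a : β → ℕ} (hm : OL acc m)
    (hc : OL acc c) (hp : OL acc p) (hd : OL acc d) (hp' : OL acc p') (hY : OL acc Y)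
    (hτ : OL acc τ) (ha : OL acc a) :
    OL acc fun z => Pool.Agent.Helper81.Sus3.bad (P z) (F z) (m z) (c z) (p z) (d z) (p' z) (Y z)
      (τ z) (a z) := by
  unfold Pool.Agent.Helper81.Sus3.bad
  have hid : OL acc (fun z : β => z) := OL.of_ls LS.id
  have h1 : LSP (fun z : β × ℕ × ℕ => P z.1) (fun z => C z.1) := lsp_comp h (by fun_prop)
  have hcl : OL acc fun z => (P z).cl (d z) (a z) :=
    OL.ls_comp (g := fun z : β × ℕ × ℕ => (P z.1).cl z.2.1 z.2.2)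
      (f := fun z : β => (z, d z, a z)) (ls_cl h1 (by fun_prop) (by fun_prop))
      (OL.prodMk hid (OL.prodMk hd ha))
  have hro : OL acc fun z => Prm.ro (a z) :=
    OL.ls_comp (g := fun n : ℕ => Prm.ro n) (ls_ro LS.id) ha
  have hFF : OL acc fun z => F z (c z) (p z) (d z) (p' z) (Y z) (τ z) (a z) :=
    OL.comp (g := fun z : β × ℕ × ℕ × ℕ × ℕ × ℕ × ℕ × ℕ => F z.1 z.2.1 z.2.2.1 z.2.2.2.1
      z.2.2.2.2.1 z.2.2.2.2.2.1 z.2.2.2.2.2.2.1 z.2.2.2.2.2.2.2)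
      (f := fun z : β => (z, c z, p z, d z, p' z, Y z, τ z, a z)) hF
      (OL.prodMk hid (OL.prodMk hc (OL.prodMk hp (OL.prodMk hd (OL.prodMk hp'
        (OL.prodMk hY (OL.prodMk hτ ha)))))))
  exact OL.ifz (OL.ifz ha (ol_c 1) (OL.mul (OL.lt01 (ol_c 0) hd)
    (OL.mul (OL.sub (ol_c 1) hro) (OL.ifz hm (OL.lt01 (ol_c 0) hcl) (ol_c 1)))))
    (ol_c 0) (OL.sub (ol_c 1) (OL.eq01 hFF (ol_c 1)))

theorem ol_all (h : LSP P C) (hF : OF acc F) {m c p d p' Y τ : β → ℕ} (hm : OL acc m)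
    (hc : OL acc c) (hp : OL acc p) (hd : OL acc d) (hp' : OL acc p') (hY : OL acc Y)
    (hτ : OL acc τ) :
    OL acc fun z => Pool.Agent.Helper81.Sus3.all (P z) (F z) (m z) (c z) (p z) (d z) (p' z) (Y z)
      (τ z) := by
  unfold Pool.Agent.Helper81.Sus3.all
  refine OL.eq01 ?_ (ol_c 0)
  refine OL.sum_le' (N := fun z => 2 ^ ((P z).S + 1)) (B := fun _ => 1)
    (f := fun z a => Pool.Agent.Helper81.Sus3.bad (P z) (F z) (m z) (c z) (p z) (d z) (p' z)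
      (Y z) (τ z) a) ?_ (ls_pS h) (LS.const 1) fun z a _ => ?_
  · exact ol_bad (β := β × ℕ) (P := fun z => P z.1) (C := fun z => C z.1) (F := fun z => F z.1)
      (lsp_comp h LS.fst) (of_comp hF LS.fst) (m := fun z => m z.1) (c := fun z => c z.1)
      (p := fun z => p z.1) (d := fun z => d z.1) (p' := fun z => p' z.1) (Y := fun z => Y z.1)
      (τ := fun z => τ z.1) (a := fun z => z.2) (OL.comp_ls (g := m) hm LS.fst)
      (OL.comp_ls (g := c) hc LS.fst) (OL.comp_ls (g := p) hp LS.fst)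
      (OL.comp_ls (g := d) hd LS.fst) (OL.comp_ls (g := p') hp' LS.fst)
      (OL.comp_ls (g := Y) hY LS.fst) (OL.comp_ls (g := τ) hτ LS.fst) (OL.of_ls LS.snd)
  · unfold Pool.Agent.Helper81.Sus3.bad ifz
    split_ifs <;> omega

theorem ol_iC (h : LSP P C) {e : β → ℕ} (he : OL acc e) : OL acc fun z => iC (P z) (e z) := by
  unfold iC
  exact OL.div he (OL.of_ls (LS.add h.u (LS.const 1)))

theorem ol_iP (h : LSP P C) {e : β → ℕ} (he : OL acc e) : OL acc fun z => iP (P z) (e z) := by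
  unfold iP
  exact OL.mod he (OL.of_ls (LS.add h.u (LS.const 1)))

theorem ol_chk (h : LSP P C) (hF : OF acc F) {Y e τ e' : β → ℕ} (hY : OL acc Y) (he : OL acc e)
    (hτ : OL acc τ) (he' : OL acc e') :
    OL acc fun z => Pool.Agent.Helper81.Sus3.chk (P z) (F z) (Y z) (e z) (τ z) (e' z) := by
  unfold Pool.Agent.Helper81.Sus3.chk
  exact OL.mul (OL.lt01 (ol_c 0) hτ) (OL.mul (OL.lt01 (ol_c 0) (ol_iC h he'))
    (ol_all h hF (ol_c 1) (ol_iC h he) (ol_iP h he) (ol_iC h he') (ol_iP h he') hY hτ))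

theorem ol_fin (h : LSP P C) (hF : OF acc F) {d Y e τ : β → ℕ} (hd : OL acc d) (hY : OL acc Y)
    (he : OL acc e) (hτ : OL acc τ) :
    OL acc fun z => Pool.Agent.Helper81.Sus3.fin (P z) (F z) (d z) (Y z) (e z) (τ z) := by
  unfold Pool.Agent.Helper81.Sus3.fin
  exact ol_all h hF (ol_c 0) (ol_iC h he) (ol_iP h he) hd
    (OL.of_ls (LS.add h.u (LS.const 1))) hY hτ

theorem ol_nxt {chk : β → ℕ → ℕ → ℕ → ℕ} {N Z c : β → ℕ} (hN : LS N)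
    (hZ : LS Z) (hc : OL acc c)
    (hchk : OL acc (fun z : β × ℕ × ℕ × ℕ => chk z.1 z.2.1 z.2.2.1 z.2.2.2))
    (h1 : ∀ a c τ d, chk a c τ d ≤ 1) :
    OL acc (fun a => nxt (chk a) (N a) (Z a) (c a)) := by
  have hl : OL acc (fun a => lst (N a * Z a) fun m => chk a (c a) (m / Z a) (m % Z a)) := by
    refine OL.lst (LS.mul hN hZ) ?_ fun a m => h1 _ _ _ _
    have hZ' : LS (fun z : β × ℕ => Z z.1) := LS.comp (g := Z) hZ LS.fst
    have hc' : OL acc (fun z : β × ℕ => c z.1) := OL.comp_ls (g := c) hc LS.fst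
    exact OL.comp (g := fun z : β × ℕ × ℕ × ℕ => chk z.1 z.2.1 z.2.2.1 z.2.2.2)
      (f := fun z : β × ℕ => (z.1, c z.1, z.2 / Z z.1, z.2 % Z z.1)) hchk
      (OL.prodMk (OL.of_ls LS.fst) (OL.prodMk hc' (OL.of_ls (by fun_prop))))
  unfold Pool.Agent.Helper31.SusD.nxt
  exact OL.ifz hc (ol_c 0) (OL.ifz (OL.lt01 hl (OL.of_ls (LS.mul hN hZ))) (ol_c 0)
    (OL.mod hl (OL.of_ls hZ)))

theorem ol_seq (h : LSP P C) (hF : OF acc F) {Y c j : β → ℕ} (hY : LS Y) (hc : LS c)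
    (hj : LS j) :
    OL acc fun z => Pool.Agent.Helper81.Sus3.seq (P z) (F z) (Y z) (c z) (j z) := by
  unfold Pool.Agent.Helper81.Sus3.seq
  have hG : LS fun z => ((P z).u + 1) * c z := LS.mul (LS.add h.u (LS.const 1)) hc
  refine OL.nrec (G := fun z => ((P z).u + 1) * c z) (N := j)
    (C := fun z => ((P z).u + 1) * c z + (iZ (P z) + 1))
    (K := fun z _ e => nxt (Pool.Agent.Helper81.Sus3.chk (P z) (F z) (Y z)) (2 ^ (P z).V)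
      (iZ (P z)) e) (OL.of_ls hG) (OL.of_ls hj)
      (LS.add hG (LS.add (ls_iZ h) (LS.const 1))) ?_ ?_
  · have hpV := ls_pV h
    have hiZ := ls_iZ h
    refine ol_nxt (β := β × ℕ × ℕ)
      (chk := fun z => Pool.Agent.Helper81.Sus3.chk (P z.1) (F z.1) (Y z.1))
      (N := fun z => 2 ^ (P z.1).V) (Z := fun z => iZ (P z.1)) (c := fun z => z.2.2)
      (LS.comp (g := fun z => 2 ^ (P z).V) hpV LS.fst)
      (LS.comp (g := fun z => iZ (P z)) hiZ LS.fst) (OL.of_ls (by fun_prop)) ?_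
      fun a c τ d => chk_le _ _ _ _ _ _
    have hπ : LS (fun z : (β × ℕ × ℕ) × ℕ × ℕ × ℕ => z.1.1) := by fun_prop
    exact ol_chk (β := (β × ℕ × ℕ) × ℕ × ℕ × ℕ) (P := fun z => P z.1.1) (C := fun z => C z.1.1)
      (F := fun z => F z.1.1) (lsp_comp h hπ) (of_comp hF hπ) (Y := fun z => Y z.1.1)
      (e := fun z => z.2.1) (τ := fun z => z.2.2.1) (e' := fun z => z.2.2.2)
      (OL.of_ls (LS.comp (g := Y) hY hπ)) (OL.of_ls (by fun_prop)) (OL.of_ls (by fun_prop))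
      (OL.of_ls (by fun_prop))
  · intro a i _
    cases i with
    | zero => exact Nat.le_add_right _ _
    | succ i =>
      have hZ : 0 < iZ (P a) := by
        unfold iZ
        positivity
      have := nxt_lt (Pool.Agent.Helper81.Sus3.chk (P a) (F a) (Y a)) (2 ^ (P a).V) hZ
        (nrec (((P a).u + 1) * c a) (fun _ e => nxt (Pool.Agent.Helper81.Sus3.chk (P a) (F a)
          (Y a)) (2 ^ (P a).V) (iZ (P a)) e) i)
      show nxt (Pool.Agent.Helper81.Sus3.chk (P a) (F a) (Y a)) (2 ^ (P a).V) (iZ (P a)) _ ≤ _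
      omega

end

theorem gOLE : Pool.Agent.Helper53.UW.GoalOLE := by
  intro κ _ acc α _ P C h F hF
  have hF : OF acc F := hF
  have hπ4 : LS (fun z : (((α × ℕ × ℕ) × ℕ) × ℕ) × ℕ => z.1.1.1.1) := by fun_prop
  have h4 : LSP (fun z : (((α × ℕ × ℕ) × ℕ) × ℕ) × ℕ => P z.1.1.1.1)
      (fun z => C z.1.1.1.1) := lsp_comp h hπ4
  have hF4 : OF acc (fun z : (((α × ℕ × ℕ) × ℕ) × ℕ) × ℕ => F z.1.1.1.1) := of_comp hF hπ4
  have hseq : OL acc (fun z : (((α × ℕ × ℕ) × ℕ) × ℕ) × ℕ =>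
      Pool.Agent.Helper81.Sus3.seq (P z.1.1.1.1) (F z.1.1.1.1) z.1.1.2 z.1.1.1.2.1 z.1.2) :=
    ol_seq h4 hF4 (by fun_prop) (by fun_prop) (by fun_prop)
  have hfin : OL acc (fun z : (((α × ℕ × ℕ) × ℕ) × ℕ) × ℕ =>
      Pool.Agent.Helper81.Sus3.fin (P z.1.1.1.1) (F z.1.1.1.1) z.1.1.1.2.2 z.1.1.2
        (Pool.Agent.Helper81.Sus3.seq (P z.1.1.1.1) (F z.1.1.1.1) z.1.1.2 z.1.1.1.2.1 z.1.2)
        z.2) :=
    ol_fin h4 hF4 (OL.of_ls (by fun_prop)) (OL.of_ls (by fun_prop)) hseq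
      (OL.of_ls (by fun_prop))
  have hle : ∀ (P : Prm) (F : ℕ → ℕ → ℕ → ℕ → ℕ → ℕ → ℕ → ℕ) (s d Y e τ : ℕ),
      lt01 0 s * Pool.Agent.Helper81.Sus3.fin P F d Y e τ ≤ 1 := fun P F s d Y e τ =>
    (Nat.mul_le_mul (lt01_le _ _) (fin_le _ _ _ _ _ _)).trans (by norm_num)
  have h3 : LSP (fun z : ((α × ℕ × ℕ) × ℕ) × ℕ => P z.1.1.1) (fun z => C z.1.1.1) :=
    lsp_comp h (by fun_prop)
  have hs1 : OL acc (fun z : ((α × ℕ × ℕ) × ℕ) × ℕ => ∑ τ ∈ range (2 ^ (P z.1.1.1).V),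
      lt01 0 (Pool.Agent.Helper81.Sus3.seq (P z.1.1.1) (F z.1.1.1) z.1.2 z.1.1.2.1 z.2) *
        Pool.Agent.Helper81.Sus3.fin (P z.1.1.1) (F z.1.1.1) z.1.1.2.2 z.1.2
          (Pool.Agent.Helper81.Sus3.seq (P z.1.1.1) (F z.1.1.1) z.1.2 z.1.1.2.1 z.2) τ) :=
    OL.sum_le' (N := fun z : ((α × ℕ × ℕ) × ℕ) × ℕ => 2 ^ (P z.1.1.1).V) (B := fun _ => 1)
      (f := fun z τ => lt01 0 (Pool.Agent.Helper81.Sus3.seq (P z.1.1.1) (F z.1.1.1) z.1.2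
        z.1.1.2.1 z.2) * Pool.Agent.Helper81.Sus3.fin (P z.1.1.1) (F z.1.1.1) z.1.1.2.2 z.1.2
          (Pool.Agent.Helper81.Sus3.seq (P z.1.1.1) (F z.1.1.1) z.1.2 z.1.1.2.1 z.2) τ)
      (OL.mul (OL.lt01 (ol_c 0) hseq) hfin) (ls_pV h3) (LS.const 1)
      fun z a _ => hle _ _ _ _ _ _ _
  have h2 : LSP (fun z : (α × ℕ × ℕ) × ℕ => P z.1.1) (fun z => C z.1.1) :=
    lsp_comp h (by fun_prop)
  have hb1 : ∀ (P : Prm) (F : ℕ → ℕ → ℕ → ℕ → ℕ → ℕ → ℕ → ℕ) (c d Y j : ℕ),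
      ∑ τ ∈ range (2 ^ P.V), lt01 0 (Pool.Agent.Helper81.Sus3.seq P F Y c j) *
        Pool.Agent.Helper81.Sus3.fin P F d Y (Pool.Agent.Helper81.Sus3.seq P F Y c j) τ ≤
      2 ^ P.V := fun P F c d Y j => by
    refine (sum_le_sum (g := fun _ => 1) fun i _ => hle _ _ _ _ _ _ _).trans ?_
    simp
  have hs2 : OL acc (fun z : (α × ℕ × ℕ) × ℕ => ∑ j ∈ range (iZ (P z.1.1) + 1),
      ∑ τ ∈ range (2 ^ (P z.1.1).V),
      lt01 0 (Pool.Agent.Helper81.Sus3.seq (P z.1.1) (F z.1.1) z.2 z.1.2.1 j) *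
        Pool.Agent.Helper81.Sus3.fin (P z.1.1) (F z.1.1) z.1.2.2 z.2
          (Pool.Agent.Helper81.Sus3.seq (P z.1.1) (F z.1.1) z.2 z.1.2.1 j) τ) :=
    OL.sum_le' (N := fun z : (α × ℕ × ℕ) × ℕ => iZ (P z.1.1) + 1)
      (B := fun z => 2 ^ (P z.1.1).V)
      (f := fun z j => ∑ τ ∈ range (2 ^ (P z.1.1).V),
      lt01 0 (Pool.Agent.Helper81.Sus3.seq (P z.1.1) (F z.1.1) z.2 z.1.2.1 j) *
        Pool.Agent.Helper81.Sus3.fin (P z.1.1) (F z.1.1) z.1.2.2 z.2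
          (Pool.Agent.Helper81.Sus3.seq (P z.1.1) (F z.1.1) z.2 z.1.2.1 j) τ)
      hs1 (LS.add (ls_iZ h2) (LS.const 1)) (ls_pV h2) fun z a _ => hb1 _ _ _ _ _ _
  have h1 : LSP (fun z : α × ℕ × ℕ => P z.1) (fun z => C z.1) := lsp_comp h (by fun_prop)
  have hs3 : OL acc (fun z : α × ℕ × ℕ => ∑ Y ∈ range (2 ^ (P z.1).u),
      ∑ j ∈ range (iZ (P z.1) + 1), ∑ τ ∈ range (2 ^ (P z.1).V),
      lt01 0 (Pool.Agent.Helper81.Sus3.seq (P z.1) (F z.1) Y z.2.1 j) *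
        Pool.Agent.Helper81.Sus3.fin (P z.1) (F z.1) z.2.2 Y
          (Pool.Agent.Helper81.Sus3.seq (P z.1) (F z.1) Y z.2.1 j) τ) := by
    refine OL.sum_le' (N := fun z : α × ℕ × ℕ => 2 ^ (P z.1).u)
      (B := fun z => (iZ (P z.1) + 1) * 2 ^ (P z.1).V)
      (f := fun z Y => ∑ j ∈ range (iZ (P z.1) + 1), ∑ τ ∈ range (2 ^ (P z.1).V),
      lt01 0 (Pool.Agent.Helper81.Sus3.seq (P z.1) (F z.1) Y z.2.1 j) *
        Pool.Agent.Helper81.Sus3.fin (P z.1) (F z.1) z.2.2 Y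
          (Pool.Agent.Helper81.Sus3.seq (P z.1) (F z.1) Y z.2.1 j) τ)
      hs2 (ls_pu h1) (LS.mul (LS.add (ls_iZ h1) (LS.const 1)) (ls_pV h1)) fun z Y _ => ?_
    refine (sum_le_sum (g := fun _ => 2 ^ (P z.1).V) fun i _ => hb1 _ _ _ _ _ _).trans ?_
    simp
  have hc : OL acc (fun z : α × ℕ × ℕ => z.2.1) := OL.of_ls (by fun_prop)
  have hd : OL acc (fun z : α × ℕ × ℕ => z.2.2) := OL.of_ls (by fun_prop)
  unfold Pool.Agent.Helper81.Sus3.edge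
  exact OL.add (OL.eq01 hc hd) (OL.mul (OL.lt01 (ol_c 0) hc)
    (OL.mul (OL.ifz hd (ol_c 1) (OL.lt01 (ol_c 1) hd)) (OL.lt01 (ol_c 0) hs3)))

end Pool.Agent.Helper45.UW
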